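import Mathlib
import Pool.Agent.Q86.ResMain

set_option autoImplicit false

universe u

namespace Pool.Agent.Results.MP_97ec3f_ag.FreeResidueFails

open Pool.Agent.Q86.Residue

/-- **Negative answer to Q2.**  Over every field `K` there is a Cohen–Macaulay codimension two
subspace arrangement `B` in `K^4` whose defining ideal is the residue ideal of no free
arrangement. -/
theorem result (K : Type u) [Field K] :
    ∃ B : Set (Submodule K (Fin 4 → K)), B.Finite ∧ (∀ X ∈ B, Module.finrank K X = 2) ∧
      IsCM 4 (defIdeal B) 2 ∧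
      ∀ (ℓ : ℕ) (A : Arr K ℓ) (H : Fin A.num)
        (J : Ideal (A.OH H)),
        A.IsFree → A.IsResidueIdeal H J → ¬ Corresponds A H J (defIdeal B) := by
  refine ⟨BB K, BB_finite, ?_, BB_isCM, fun ℓ A H J hA hJ => main A hA H J hJ⟩
  rintro X ⟨i, j, hij, rfl⟩
  exact XX_finrank hij

end Pool.Agent.Results.MP_97ec3f_ag.FreeResidueFails
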